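import Pool.Agent.Y985.ME.Stm
import Pool.Agent.H984R4.NP.Limit

/-!
The Borel-Cantelli argument for the scaling limits (project Y985-ME).
-/

set_option autoImplicit false

namespace Pool.Agent.Y674.ME

open H974 Finset H342P H984P H984N MeasureTheory Filter Topology

theorem okh2 : Ok (fun _ : Edg => (1/2:ℝ)) := fun _ => ⟨by norm_num, by norm_num⟩

/-- Borel-Cantelli for open sets whose probabilities at small meshes are summable. -/
theorem bc (R : Rect) {δ : ℕ → ℝ} (hδ : ∀ i, 0 < δ i) (hlim : Tendsto δ atTop (𝓝 0))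
    {μ : ProbabilityMeasure X} (hμ : Tendsto (fun i => R.law (δ i)) atTop (𝓝 μ))
    {O : ℕ → Set X} (hO : ∀ j, IsOpen (O j)) {K : ℝ} (hK : 0 ≤ K) {J : ℕ}
    (h : ∀ j, J ≤ j → ∃ δ0 : ℝ, 0 < δ0 ∧ ∀ d : ℝ, 0 < d → d ≤ δ0 →
      R.prob d (fun F => (R.curve d F, R.time d F) ∈ O j) ≤ K * (1/2) ^ j) :
    ∀ᵐ p ∂(μ : Measure X), ∃ J' : ℕ, ∀ j, J' ≤ j → p ∉ O j := by
  have h1 : ∀ j, J ≤ j → (μ : Measure X) (O j) ≤ ENNReal.ofReal (K * (1/2) ^ j) := by
    intro j hj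
    obtain ⟨δ0, hδ0, h⟩ := h j hj
    have h3 := limit_closed R hδ hlim hμ (hO j).isClosed_compl
      (by positivity : (0:ℝ) ≤ K * (1/2) ^ j) hδ0 (fun d hd hd2 => by
        have h4 := h d hd hd2
        have e : (fun F => (R.curve d F, R.time d F) ∉ (O j)ᶜ) =
            (fun F => (R.curve d F, R.time d F) ∈ O j) := by
          funext F
          simp only [Set.mem_compl_iff, not_not]
        rw [e]
        exact h4)
    rwa [compl_compl] at h3
  have hs : Summable (fun n : ℕ => K * (1/2 : ℝ) ^ (n + J)) := by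
    have h5 : Summable (fun n : ℕ => (1/2 : ℝ) ^ n) := summable_geometric_two
    have e : (fun n : ℕ => K * (1/2 : ℝ) ^ (n + J)) = (fun n : ℕ => (K * (1/2) ^ J) * (1/2 : ℝ) ^ n) := by
      funext n
      rw [pow_add]
      ring
    rw [e]
    exact h5.mul_left _
  have h2 : ∑' n, (μ : Measure X) (O (n + J)) ≠ ⊤ :=
    ne_top_of_le_ne_top hs.tsum_ofReal_ne_top
      (ENNReal.tsum_le_tsum (fun n => h1 (n + J) (by omega)))
  filter_upwards [ae_eventually_notMem h2] with p hp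
  obtain ⟨a, ha⟩ := eventually_atTop.1 hp
  refine ⟨a + J, fun j hj => ?_⟩
  have h6 := ha (j - J) (by omega)
  rwa [Nat.sub_add_cancel (by omega)] at h6

/-- Dyadic scales. -/
theorem dyad {r : ℝ} (hr : 0 < r) (h : r ≤ 1/2) :
    ∃ j : ℕ, (1/2:ℝ) ^ (j + 2) < r ∧ r ≤ (1/2) ^ (j + 1) := by
  obtain ⟨n, hn1, hn2⟩ := exists_nat_pow_near_of_lt_one (y := (1/2:ℝ)) hr (by linarith)
    (by norm_num) (by norm_num)
  rcases n with _ | n
  · rw [zero_add, pow_one] at hn1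
    linarith
  · exact ⟨n, hn1, hn2⟩

/-- A dyadic scale below `r0` is late. -/
theorem dyad_late {j J : ℕ} {r : ℝ} (h1 : (1/2:ℝ) ^ (j + 2) < r) (h2 : r < (1/2) ^ (J + 2)) :
    J ≤ j := by
  by_contra hc
  have h3 : (1/2:ℝ) ^ (J + 2) ≤ (1/2) ^ (j + 2) :=
    pow_le_pow_of_le_one (by norm_num) (by norm_num) (by omega)
  linarith

theorem log_dyad (j : ℕ) : Real.log (1 / (1/2:ℝ) ^ j) = j * Real.log 2 := by
  rw [one_div, Real.log_inv, Real.log_pow, one_div, Real.log_inv]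
  ring

theorem exp_dyad (j : ℕ) : Real.exp (-(3 * (j * Real.log 2))) = (1/8 : ℝ) ^ j := by
  have e : -(3 * ((j:ℝ) * Real.log 2)) = (j:ℝ) * (-(3 * Real.log 2)) := by ring
  rw [e, Real.exp_nat_mul]
  congr 1
  have h3 : Real.exp (-(3 * Real.log 2)) = (Real.exp (3 * Real.log 2))⁻¹ := Real.exp_neg _
  have h4 : Real.exp (3 * Real.log 2) = 8 := by
    have : (3 : ℝ) * Real.log 2 = ((3 : ℕ) : ℝ) * Real.log 2 := by norm_num
    rw [this, Real.exp_nat_mul, Real.exp_log (by norm_num)]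
    norm_num
  rw [h3, h4]
  norm_num

end Pool.Agent.Y674.ME
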