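import Pool.Agent.Y674.ME.BC

/-!
The modulus of continuity of the scaling limits: passage to the limit (project Y985-ME).
-/

set_option autoImplicit false

namespace Pool.Agent.Y674.ME

open H974 Finset H342P H984P H984N MeasureTheory Filter Topology Pool.Agent.Y985.ME

/-- Curves with a fast piece. -/
def MO (h y : ℝ) : Set X := {p : X | ∃ s t : unitInterval,
  |(s : ℝ) - t| * p.2 < 4 * h ∧ y < dist (p.1 s) (p.1 t)}

theorem mo_open (h y : ℝ) : IsOpen (MO h y) := by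
  have e : MO h y = ⋃ s : unitInterval, ⋃ t : unitInterval,
      ({p : X | |(s : ℝ) - t| * p.2 < 4 * h} ∩ {p : X | y < dist (p.1 s) (p.1 t)}) := by
    ext p
    simp only [MO, Set.mem_iUnion, Set.mem_inter_iff, Set.mem_ofPred_eq]
  rw [e]
  refine isOpen_iUnion fun s => isOpen_iUnion fun t => IsOpen.inter ?_ ?_
  · exact isOpen_lt (continuous_const.mul continuous_snd) continuous_const
  · have c0 : Continuous (fun p : X => p.1 s) := by fun_prop
    have c1 : Continuous (fun p : X => p.1 t) := by fun_prop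
    exact isOpen_lt continuous_const (c0.dist c1)

/-- A fast piece of the discrete curve is a fast piece of the walk. -/
theorem mod_lat {R : Rect} {δ h y : ℝ} {F : Finset Edg} (hδ : 0 < δ) (hy : 4 * δ ≤ y)
    (hh : δ ^ (7/4 : ℝ) ≤ h) (hm : (R.curve δ F, R.time δ F) ∈ MO h y) :
    ∃ k l : ℕ, k ≤ l ∧ l ≤ (R.dm δ).len F ∧
      y / (4 * δ) ≤ ((H984N.sd ((R.dm δ).walk F k).1 ((R.dm δ).walk F l).1 : ℤ) : ℝ) ∧
      ((l - k : ℕ) : ℝ) ≤ 5 * h / δ ^ (7/4 : ℝ) := by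
  obtain ⟨s, t, h1, h2⟩ := hm
  set D := R.dm δ with hDdef
  set N := D.len F with hN
  have hδp : 0 < δ ^ (7/4 : ℝ) := Real.rpow_pos_of_pos hδ _
  set p : ℕ → ℂ := fun k => pos δ (D.walk F k) with hp
  have hcurve : R.curve δ F = pl N p := rfl
  have htime : R.time δ F = δ ^ (7/4 : ℝ) * (N : ℝ) := rfl
  have h1' : |(s : ℝ) - t| * (δ ^ (7/4 : ℝ) * (N : ℝ)) < 4 * h := h1
  have h2' : y < dist (pl N p s) (pl N p t) := h2
  have hstep : ∀ k < N, dist (p k) (p (k + 1)) ≤ δ / 2 := by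
    intro k _
    have := pos_nxt hδ.le (D.cfg F) (D.walk F k)
    rwa [← walk_succ] at this
  have hNpos : 0 < N := by
    rcases Nat.eq_zero_or_pos N with h3 | h3
    · rw [h3, pl_apply', pl_apply'] at h2'
      simp only [Finset.range_zero, Finset.sum_empty, dist_self] at h2'
      linarith
    · exact h3
  have hNr : (0:ℝ) < N := by exact_mod_cast hNpos
  have near : ∀ s : unitInterval, ∃ k < N, (k : ℝ) ≤ s * N ∧ (s : ℝ) * N ≤ k + 1 ∧
      dist (pl N p s) (p k) ≤ δ / 2 := by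
    intro s
    obtain ⟨k, hk, hk1, hk2⟩ := pl_exists_seg hNpos s
    refine ⟨k, hk, hk1, hk2, ?_⟩
    rw [pl_seg hk hk1 hk2, dist_eq_norm]
    have e : p k + (((s : ℝ) * N - k : ℝ) : ℂ) * (p (k + 1) - p k) - p k =
        (((s : ℝ) * N - k : ℝ) : ℂ) * (p (k + 1) - p k) := by ring
    rw [e, norm_mul, Complex.norm_real, Real.norm_eq_abs, abs_of_nonneg (by linarith)]
    have h3 := hstep k hk
    rw [dist_comm, dist_eq_norm] at h3
    have h4 := norm_nonneg (p (k + 1) - p k)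
    nlinarith
  obtain ⟨k, hk, hk1, hk2, hk3⟩ := near s
  obtain ⟨l, hl, hl1, hl2, hl3⟩ := near t
  -- the distance of the nodes
  have h5 : y - δ < dist (p k) (p l) := by
    have h6 := dist_triangle4 (pl N p s) (p k) (p l) (pl N p t)
    rw [dist_comm (p l)] at h6
    linarith
  have h7 : dist (p k) (p l) ≤ δ * (2 * ((H984N.sd (D.walk F k).1 (D.walk F l).1 : ℤ) : ℝ) + 1) :=
    dist_pos_le hδ.le _ _
  have h8 : y / (4 * δ) ≤ ((H984N.sd (D.walk F k).1 (D.walk F l).1 : ℤ) : ℝ) := by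
    rw [div_le_iff₀ (by positivity)]
    nlinarith
  -- the number of steps
  have h9 : |(s : ℝ) * N - t * N| < 4 * h / δ ^ (7/4 : ℝ) := by
    rw [lt_div_iff₀ hδp, ← sub_mul, abs_mul, abs_of_pos hNr]
    calc |(s : ℝ) - t| * N * δ ^ (7/4 : ℝ) = |(s : ℝ) - t| * (δ ^ (7/4 : ℝ) * (N : ℝ)) := by ring
      _ < 4 * h := h1'
  have h10 : 1 ≤ h / δ ^ (7/4 : ℝ) := by rwa [le_div_iff₀ hδp, one_mul]
  have e5 : 5 * h / δ ^ (7/4 : ℝ) = 4 * h / δ ^ (7/4 : ℝ) + h / δ ^ (7/4 : ℝ) := by ring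
  have h11 := abs_lt.mp h9
  rcases le_total k l with hkl | hkl
  · refine ⟨k, l, hkl, hl.le, h8, ?_⟩
    rw [Nat.cast_sub hkl, e5]
    linarith [h11.1]
  · refine ⟨l, k, hkl, hk.le, ?_, ?_⟩
    · have e : H984N.sd (D.walk F l).1 (D.walk F k).1 = H984N.sd (D.walk F k).1 (D.walk F l).1 := by
        unfold H984N.sd
        rw [abs_sub_comm, abs_sub_comm (D.walk F l).1.2]
      rw [e]
      exact h8
    · rw [Nat.cast_sub hkl, e5]
      linarith [h11.2]

theorem modup (hF : S_FAST) : ∀ R : Rect, ModUp R := by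
  intro R
  obtain ⟨κ, S, δ0, hκ, hS, hδ0, hδ01, hshape⟩ := R.shape
  obtain ⟨c, C, hc, hC, H⟩ := hF κ hκ
  have hlog : 0 < Real.log 2 := Real.log_pos (by norm_num)
  set K : ℝ := 5 * 4 ^ (7/4 : ℝ) with hK
  have hK0 : 0 < K := by positivity
  set B : ℝ := 3 / c with hB
  have hB0 : 0 < B := by positivity
  set A : ℝ := K ^ (4/7 : ℝ) * B ^ (3/7 : ℝ) with hA
  have hA0 : 0 < A := by positivity
  set L : ℕ → ℝ := fun j => (j : ℝ) * Real.log 2 with hL
  set y : ℕ → ℝ := fun j => A * (((1/2 : ℝ) ^ j) ^ (4/7 : ℝ) * (L j) ^ (3/7 : ℝ)) with hy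
  -- `y j → 0`
  have hy0 : Tendsto y atTop (𝓝 0) := by
    set q : ℝ := (1/2 : ℝ) ^ (4/7 : ℝ) with hq
    have hq0 : 0 < q := by positivity
    have hq1 : q < 1 := Real.rpow_lt_one (by norm_num) (by norm_num) (by norm_num)
    have t1 : Tendsto (fun j : ℕ => q ^ j) atTop (𝓝 0) :=
      tendsto_pow_atTop_nhds_zero_of_lt_one hq0.le hq1
    have t2 : Tendsto (fun j : ℕ => (j : ℝ) * q ^ j) atTop (𝓝 0) :=
      tendsto_self_mul_const_pow_of_lt_one hq0.le hq1
    have t3 : Tendsto (fun j : ℕ => A * (q ^ j + (j : ℝ) * q ^ j)) atTop (𝓝 0) := by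
      have := (t1.add t2).const_mul A
      simpa using this
    refine squeeze_zero (fun j => ?_) (fun j => ?_) t3
    · show 0 ≤ A * (((1/2 : ℝ) ^ j) ^ (4/7 : ℝ) * ((j : ℝ) * Real.log 2) ^ (3/7 : ℝ))
      positivity
    · show A * (((1/2 : ℝ) ^ j) ^ (4/7 : ℝ) * ((j : ℝ) * Real.log 2) ^ (3/7 : ℝ)) ≤ _
      refine mul_le_mul_of_nonneg_left ?_ hA0.le
      have e1 : ((1/2 : ℝ) ^ j) ^ (4/7 : ℝ) = q ^ j := by
        rw [hq, ← Real.rpow_natCast, ← Real.rpow_natCast, ← Real.rpow_mul (by norm_num),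
          ← Real.rpow_mul (by norm_num), mul_comm]
      have hj0 : (0:ℝ) ≤ j := Nat.cast_nonneg j
      have hl1 : Real.log 2 ≤ 1 := by
        have := Real.log_two_lt_d9
        linarith
      have hx : (j : ℝ) * Real.log 2 ≤ 1 + j := by nlinarith
      have e2 : ((j : ℝ) * Real.log 2) ^ (3/7 : ℝ) ≤ 1 + j := by
        calc ((j : ℝ) * Real.log 2) ^ (3/7 : ℝ) ≤ (1 + (j:ℝ)) ^ (3/7 : ℝ) :=
              Real.rpow_le_rpow (by positivity) hx (by norm_num)
          _ ≤ (1 + (j:ℝ)) ^ (1 : ℝ) :=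
              Real.rpow_le_rpow_of_exponent_le (by linarith) (by norm_num)
          _ = 1 + j := Real.rpow_one _
      rw [e1]
      calc q ^ j * ((j : ℝ) * Real.log 2) ^ (3/7 : ℝ) ≤ q ^ j * (1 + j) :=
            mul_le_mul_of_nonneg_left e2 (by positivity)
        _ = q ^ j + (j : ℝ) * q ^ j := by ring
  -- large `j`
  obtain ⟨J, hJ⟩ : ∃ J : ℕ, ∀ j, J ≤ j → 1 ≤ B * L j ∧ 1 ≤ L j ∧ y j ≤ 4 * S := by
    have tL : Tendsto L atTop atTop := tendsto_natCast_atTop_atTop.atTop_mul_const hlog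
    have tB : Tendsto (fun j => B * L j) atTop atTop := tL.const_mul_atTop hB0
    have ev := ((tB.eventually_ge_atTop 1).and (tL.eventually_ge_atTop 1)).and
      (hy0.eventually (ge_mem_nhds (show (0:ℝ) < 4 * S by positivity)))
    obtain ⟨J, hJ⟩ := eventually_atTop.1 ev
    exact ⟨J, fun j hj => ⟨(hJ j hj).1.1, (hJ j hj).1.2, (hJ j hj).2⟩⟩
  refine ⟨A * 4 ^ (4/7 : ℝ), by positivity, fun δ hδ hlim μ hμ => ?_⟩
  have key := bc R hδ hlim hμ (O := fun j => MO ((1/2 : ℝ) ^ j) (y j)) (fun j => mo_open _ _)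
    (K := C * (16 * S ^ 2 / A ^ 2)) (by positivity) (J := J) (fun j hj => by
    obtain ⟨hBL, hL1, hyS⟩ := hJ j hj
    set h : ℝ := (1/2 : ℝ) ^ j with hh
    have hh0 : 0 < h := by positivity
    have hLj : 0 < L j := by linarith
    have hyj : 0 < y j := by
      show 0 < A * (h ^ (4/7 : ℝ) * (L j) ^ (3/7 : ℝ))
      positivity
    set x : ℝ := (B * L j) ^ (-(3/4) : ℝ) with hx
    have hBL0 : 0 < B * L j := by positivity
    have hx0 : 0 < x := Real.rpow_pos_of_pos hBL0 _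
    have hx1 : x ≤ 1 := Real.rpow_le_one_of_one_le_of_nonpos hBL (by norm_num)
    have hx43 : x ^ (-(4/3) : ℝ) = B * L j := by
      rw [hx, ← Real.rpow_mul hBL0.le]
      norm_num
    -- `y ^ (7/4) = K h / x`
    have hy74 : (y j) ^ (7/4 : ℝ) * x = K * h := by
      have e1 : y j = A * (h ^ (4/7 : ℝ) * (L j) ^ (3/7 : ℝ)) := rfl
      have e2 : y j = K ^ (4/7 : ℝ) * h ^ (4/7 : ℝ) * (B * L j) ^ (3/7 : ℝ) := by
        rw [e1, hA, Real.mul_rpow hB0.le hLj.le]
        ring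
      rw [e2, Real.mul_rpow (by positivity) (by positivity), Real.mul_rpow (by positivity)
        (by positivity), ← Real.rpow_mul hK0.le, ← Real.rpow_mul hh0.le, ← Real.rpow_mul hBL0.le,
        hx, mul_assoc, ← Real.rpow_add hBL0]
      norm_num
    have hd0 : 0 < (h ^ (4/7 : ℝ)) := by positivity
    refine ⟨min δ0 (min (y j / 4) (min (h ^ (4/7 : ℝ)) (y j / (4 * (C * (B * L j)))))),
      by positivity, fun d hd hdm => ?_⟩
    have hd1 : d ≤ δ0 := hdm.trans (min_le_left _ _)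
    have hd2 : d ≤ y j / 4 := hdm.trans ((min_le_right _ _).trans (min_le_left _ _))
    have hd3 : d ≤ h ^ (4/7 : ℝ) :=
      hdm.trans ((min_le_right _ _).trans ((min_le_right _ _).trans (min_le_left _ _)))
    have hd4 : d ≤ y j / (4 * (C * (B * L j))) :=
      hdm.trans ((min_le_right _ _).trans ((min_le_right _ _).trans (min_le_right _ _)))
    have hdh : d ^ (7/4 : ℝ) ≤ h := by
      calc d ^ (7/4 : ℝ) ≤ (h ^ (4/7 : ℝ)) ^ (7/4 : ℝ) :=
            Real.rpow_le_rpow hd.le hd3 (by norm_num)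
        _ = h := by
            rw [← Real.rpow_mul hh0.le]
            norm_num
    have hSh := hshape d hd hd1
    have h1 := H (R.dm d) (S / d) (y j / (4 * d)) x hSh hx0 hx1
      (by
        rw [hx43, le_div_iff₀ (by positivity)]
        rw [le_div_iff₀ (by positivity)] at hd4
        linarith)
      (by
        rw [div_le_div_iff₀ (by positivity) hd]
        nlinarith)
    have h2 : R.prob d (fun F => (R.curve d F, R.time d F) ∈ MO h (y j)) ≤
        P (R.dm d).edges (fun F => ∃ k l : ℕ, k ≤ l ∧ l ≤ (R.dm d).len F ∧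
          y j / (4 * d) ≤ ((H984N.sd ((R.dm d).walk F k).1 ((R.dm d).walk F l).1 : ℤ) : ℝ) ∧
          ((l - k : ℕ) : ℝ) ≤ x * (y j / (4 * d)) ^ (7/4 : ℝ)) := by
      refine Pr_mono okh2 fun F _ hF => ?_
      obtain ⟨k, l, g1, g2, g3, g4⟩ := mod_lat hd (by linarith) hdh hF
      refine ⟨k, l, g1, g2, g3, g4.trans (le_of_eq ?_)⟩
      rw [Real.div_rpow hyj.le (by positivity), Real.mul_rpow (by norm_num) hd.le]
      have e3 : x * ((y j) ^ (7/4 : ℝ) / (4 ^ (7/4 : ℝ) * d ^ (7/4 : ℝ))) =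
          ((y j) ^ (7/4 : ℝ) * x) / (4 ^ (7/4 : ℝ) * d ^ (7/4 : ℝ)) := by ring
      have hdp : 0 < d ^ (7/4 : ℝ) := Real.rpow_pos_of_pos hd _
      rw [e3, hy74, hK]
      field_simp
    refine h2.trans (h1.trans ?_)
    have h5 : (S / d / (y j / (4 * d))) ^ 2 ≤ 16 * S ^ 2 / A ^ 2 * 4 ^ j := by
      have e1 : S / d / (y j / (4 * d)) = 4 * S / y j := by field_simp
      have h1h : h ≤ 1 := pow_le_one₀ (by norm_num) (by norm_num)
      have e4 : h ≤ h ^ (4/7 : ℝ) := by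
        calc h = h ^ (1 : ℝ) := (Real.rpow_one h).symm
          _ ≤ h ^ (4/7 : ℝ) := Real.rpow_le_rpow_of_exponent_ge hh0 h1h (by norm_num)
      have e5 : 1 ≤ (L j) ^ (3/7 : ℝ) := Real.one_le_rpow hL1 (by norm_num)
      have e6 : A * h ≤ y j := by
        show A * h ≤ A * (h ^ (4/7 : ℝ) * (L j) ^ (3/7 : ℝ))
        refine mul_le_mul_of_nonneg_left ?_ hA0.le
        calc h = h * 1 := (mul_one h).symm
          _ ≤ h ^ (4/7 : ℝ) * (L j) ^ (3/7 : ℝ) := mul_le_mul e4 e5 (by norm_num) (by positivity)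
      have e7 : 4 * S / y j ≤ 4 * S / (A * h) :=
        div_le_div_of_nonneg_left (by positivity) (by positivity) e6
      have e2 : (4:ℝ) ^ j = 1 / h ^ 2 := by
        rw [hh, ← pow_mul, mul_comm j 2, pow_mul]
        rw [one_div, ← inv_pow]
        norm_num
      rw [e1]
      calc (4 * S / y j) ^ 2 ≤ (4 * S / (A * h)) ^ 2 :=
            pow_le_pow_left₀ (by positivity) e7 2
        _ = 16 * S ^ 2 / A ^ 2 * 4 ^ j := by
            rw [e2]
            field_simp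
            norm_num
    have h7 : Real.exp (-(c * x ^ (-(4/3) : ℝ))) = (1/8 : ℝ) ^ j := by
      rw [← exp_dyad, hx43, hB]
      congr 2
      show c * (3 / c * ((j : ℝ) * Real.log 2)) = 3 * ((j : ℝ) * Real.log 2)
      field_simp
    rw [h7]
    calc C * (S / d / (y j / (4 * d))) ^ 2 * (1/8 : ℝ) ^ j
        ≤ C * (16 * S ^ 2 / A ^ 2 * 4 ^ j) * (1/8 : ℝ) ^ j := by gcongr
      _ = C * (16 * S ^ 2 / A ^ 2) * (1/2) ^ j := by
          have : (1/2 : ℝ) ^ j = 4 ^ j * (1/8) ^ j := by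
            rw [← mul_pow]; norm_num
          rw [this]
          ring)
  filter_upwards [key] with p hp
  obtain ⟨J', hJ'⟩ := hp
  refine ⟨(1/2 : ℝ) ^ (J' + 2), by positivity, fun r hr hr2 s t hst => ?_⟩
  have hr12 : r ≤ 1/2 := by
    have : (1/2 : ℝ) ^ (J' + 2) ≤ (1/2) ^ 1 :=
      pow_le_pow_of_le_one (by norm_num) (by norm_num) (by omega)
    linarith
  obtain ⟨j, hj1, hj2⟩ := dyad hr hr12
  have hjJ : J' ≤ j := dyad_late hj1 hr2
  have h1 := hJ' j hjJ
  have hrj : r < (1/2 : ℝ) ^ j := by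
    have : (1/2 : ℝ) ^ (j + 1) = (1/2) ^ j * (1/2) := pow_succ _ _
    have h3 : (0:ℝ) < (1/2) ^ j := by positivity
    linarith
  have h2 : dist (p.1 s) (p.1 t) ≤ y j := by
    by_contra hc
    refine h1 ⟨s, t, ?_, not_le.mp hc⟩
    linarith
  have h5 : (1/2 : ℝ) ^ j ≤ 4 * r := by
    have : (1/2 : ℝ) ^ (j + 2) = (1/2) ^ j * (1/4) := by rw [pow_add]; norm_num
    linarith
  have h6 : (j : ℝ) * Real.log 2 ≤ Real.log (1 / r) := by
    rw [← log_dyad]
    apply Real.log_le_log (by positivity)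
    exact one_div_le_one_div_of_le hr hrj.le
  calc dist (p.1 s) (p.1 t) ≤ A * (((1/2 : ℝ) ^ j) ^ (4/7 : ℝ) * ((j : ℝ) * Real.log 2) ^ (3/7 : ℝ)) := h2
    _ ≤ A * ((4 * r) ^ (4/7 : ℝ) * (Real.log (1 / r)) ^ (3/7 : ℝ)) := by
        refine mul_le_mul_of_nonneg_left (mul_le_mul ?_ ?_ (by positivity) (by positivity)) hA0.le
        · exact Real.rpow_le_rpow (by positivity) h5 (by norm_num)
        · exact Real.rpow_le_rpow (by positivity) h6 (by norm_num)
    _ = A * 4 ^ (4/7 : ℝ) * (r ^ (4/7 : ℝ) * Real.log (1 / r) ^ (3/7 : ℝ)) := by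
        rw [Real.mul_rpow (by norm_num) hr.le]
        ring

end Pool.Agent.Y674.ME
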