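import Pool.Agent.Y674.ME.BC
import Pool.Agent.H984R4.NP.EnergyC

/-!
The occupation bound for the scaling limits: passage to the limit (project Y985-ME).
-/

set_option autoImplicit false

namespace Pool.Agent.Y674.ME

open H974 Finset H342P H984P H984N MeasureTheory Filter Topology Pool.Agent.Y985.ME

/-- The bound for the time in the balls of radius `r` is a closed condition. -/
theorem occ_closed {K : ℝ} (r : ℝ) (hK : 0 ≤ K) : IsClosed {p : X | ∀ z : ℂ,
    p.2 * (volume {s : unitInterval | dist (p.1 s) z < r}).toReal ≤ K} := by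
  rw [← isSeqClosed_iff_isClosed]
  intro u p hu hup z
  rcases le_or_gt p.2 0 with h0 | h0
  · exact (mul_nonpos_of_nonpos_of_nonneg h0 ENNReal.toReal_nonneg).trans hK
  have hup1 : Tendsto (fun n => (u n).1) atTop (𝓝 p.1) := (continuous_fst.tendsto p).comp hup
  have hup2 : Tendsto (fun n => (u n).2) atTop (𝓝 p.2) := (continuous_snd.tendsto p).comp hup
  have key : ∀ η : ℝ, 0 < η →
      volume {s : unitInterval | dist (p.1 s) z < r - η} ≤ ENNReal.ofReal (K / p.2) := by
    intro η hη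
    have h1 : p.2 * (volume {s : unitInterval | dist (p.1 s) z < r - η}).toReal ≤ K := by
      have h2 : Tendsto (fun n => (u n).2 *
          (volume {s : unitInterval | dist (p.1 s) z < r - η}).toReal) atTop
          (𝓝 (p.2 * (volume {s : unitInterval | dist (p.1 s) z < r - η}).toReal)) :=
        hup2.mul_const _
      refine le_of_tendsto h2 ?_
      filter_upwards [Metric.tendsto_nhds.mp hup1 η hη, hup2.eventually (lt_mem_nhds h0)]
        with n hn hn0
      refine le_trans (mul_le_mul_of_nonneg_left ?_ hn0.le) (hu n z)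
      refine ENNReal.toReal_mono (measure_ne_top _ _) (measure_mono ?_)
      intro s hs
      have h3 : dist ((u n).1 s) (p.1 s) ≤ dist (u n).1 p.1 := ContinuousMap.dist_apply_le_dist s
      have h4 := dist_triangle ((u n).1 s) (p.1 s) z
      have h5 : dist (p.1 s) z < r - η := hs
      show dist ((u n).1 s) z < r
      linarith
    rw [ENNReal.le_ofReal_iff_toReal_le (measure_ne_top _ _) (by positivity), le_div_iff₀ h0]
    linarith
  have hU : {s : unitInterval | dist (p.1 s) z < r} =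
      ⋃ m : ℕ, {s : unitInterval | dist (p.1 s) z < r - 1 / ((m : ℝ) + 1)} := by
    ext s
    simp only [Set.mem_iUnion]
    constructor
    · intro hs
      have hs' : 0 < r - dist (p.1 s) z := sub_pos.mpr hs
      obtain ⟨m, hm⟩ := exists_nat_one_div_lt hs'
      exact ⟨m, by show dist (p.1 s) z < r - 1 / ((m : ℝ) + 1); linarith⟩
    · rintro ⟨m, hm⟩
      have hm' : dist (p.1 s) z < r - 1 / ((m : ℝ) + 1) := hm
      have : (0:ℝ) < 1 / ((m : ℝ) + 1) := by positivity
      show dist (p.1 s) z < r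
      linarith
  have hmono : Monotone fun m : ℕ =>
      {s : unitInterval | dist (p.1 s) z < r - 1 / ((m : ℝ) + 1)} := by
    intro m m' hmm s hs
    have hs' : dist (p.1 s) z < r - 1 / ((m : ℝ) + 1) := hs
    have : 1 / ((m' : ℝ) + 1) ≤ 1 / ((m : ℝ) + 1) := by
      apply one_div_le_one_div_of_le (by positivity)
      have : (m : ℝ) ≤ m' := by exact_mod_cast hmm
      linarith
    show dist (p.1 s) z < r - 1 / ((m' : ℝ) + 1)
    linarith
  have h6 : volume {s : unitInterval | dist (p.1 s) z < r} ≤ ENNReal.ofReal (K / p.2) := by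
    rw [hU, hmono.measure_iUnion]
    exact iSup_le fun m => key _ (by positivity)
  have h7 : (volume {s : unitInterval | dist (p.1 s) z < r}).toReal ≤ K / p.2 := by
    rwa [ENNReal.le_ofReal_iff_toReal_le (measure_ne_top _ _) (by positivity)] at h6
  rw [le_div_iff₀ h0] at h7
  linarith

/-- The time in a ball and the number of steps in a box. -/
theorem occ_lat {R : Rect} {δ r K : ℝ} {F : Finset Edg} (hδ : 0 < δ) (hr : δ ≤ r) (hK : 0 ≤ K)
    {z : ℂ} (h : K < R.time δ F * (volume {s : unitInterval | dist (R.curve δ F s) z < r}).toReal) :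
    ∃ v : Vtx, K ≤ δ ^ (7/4 : ℝ) * (((Finset.range ((R.dm δ).len F + 1)).filter
      (fun t => ((H984N.sd ((R.dm δ).walk F t).1 v : ℤ) : ℝ) ≤ 4 * r / δ)).card : ℝ) := by
  classical
  set D := R.dm δ with hDdef
  set N := D.len F with hN
  have hr0 : 0 < r := hδ.trans_le hr
  have hδp : 0 < δ ^ (7/4 : ℝ) := Real.rpow_pos_of_pos hδ _
  have htime : R.time δ F = δ ^ (7/4 : ℝ) * (N : ℝ) := rfl
  have hNpos : 0 < N := by
    rcases Nat.eq_zero_or_pos N with h1 | h1
    · rw [htime, h1] at h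
      norm_num at h
      linarith
    · exact h1
  have hNr : (0:ℝ) < N := by exact_mod_cast hNpos
  set p : ℕ → ℂ := fun k => pos δ (D.walk F k) with hp
  have hstep : ∀ k < N, dist (p k) (p (k + 1)) ≤ δ / 2 := by
    intro k _
    have := pos_nxt hδ.le (D.cfg F) (D.walk F k)
    rwa [← walk_succ] at this
  set K' : Finset ℕ := (Finset.range N).filter (fun k => dist (p k) z < r + δ / 2) with hK'
  have hsub : {s : unitInterval | dist (R.curve δ F s) z < r} ⊆ ⋃ k ∈ K', EnergyC_I N k := by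
    intro s hs
    obtain ⟨k, hk, hks⟩ := EnergyC_cover hNpos s
    have h1 := EnergyC_near hstep hk hks
    have hs' : dist (pl N p s) z < r := hs
    have h2 := dist_triangle (p k) (pl N p s) z
    have h3 : dist (p k) z < r + δ / 2 := by
      have h4 : dist (p k) (pl N p s) ≤ δ / 2 := by
        rw [dist_comm]; exact h1
      linarith
    simp only [Set.mem_iUnion]
    exact ⟨k, Finset.mem_filter.mpr ⟨Finset.mem_range.mpr hk, h3⟩, hks⟩
  have hvol : (volume {s : unitInterval | dist (R.curve δ F s) z < r}).toReal ≤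
      K'.card * (1 / N) := by
    have h1 : volume {s : unitInterval | dist (R.curve δ F s) z < r} ≤
        ENNReal.ofReal (K'.card * (1 / N)) := by
      refine (measure_mono hsub).trans ((measure_biUnion_finset_le _ _).trans ?_)
      have h1 : ∀ k ∈ K', volume (EnergyC_I N k) ≤ ENNReal.ofReal (1 / N) := by
        intro k _
        have := EnergyC_vol k hNpos
        rw [← ENNReal.ofReal_toReal (measure_ne_top volume (EnergyC_I N k))]
        exact ENNReal.ofReal_le_ofReal this
      refine (Finset.sum_le_sum h1).trans ?_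
      rw [Finset.sum_const, nsmul_eq_mul, ENNReal.ofReal_mul (Nat.cast_nonneg _),
        ENNReal.ofReal_natCast]
    rwa [ENNReal.le_ofReal_iff_toReal_le (measure_ne_top _ _) (by positivity)] at h1
  have hbd : K < δ ^ (7/4 : ℝ) * (K'.card : ℝ) := by
    refine h.trans_le ?_
    rw [htime]
    calc δ ^ (7/4 : ℝ) * (N : ℝ) * (volume {s : unitInterval | dist (R.curve δ F s) z < r}).toReal
        ≤ δ ^ (7/4 : ℝ) * (N : ℝ) * (K'.card * (1 / N)) :=
          mul_le_mul_of_nonneg_left hvol (by positivity)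
      _ = δ ^ (7/4 : ℝ) * (K'.card : ℝ) := by field_simp
  rcases K'.eq_empty_or_nonempty with hE | ⟨k0, hk0⟩
  · rw [hE, Finset.card_empty] at hbd
    norm_num at hbd
    linarith
  · refine ⟨(D.walk F k0).1, hbd.le.trans (mul_le_mul_of_nonneg_left ?_ hδp.le)⟩
    have hc : K'.card ≤ ((Finset.range (N + 1)).filter
        (fun t => ((H984N.sd (D.walk F t).1 (D.walk F k0).1 : ℤ) : ℝ) ≤ 4 * r / δ)).card := by
      refine Finset.card_le_card ?_
      intro k hk
      rw [hK', Finset.mem_filter, Finset.mem_range] at hk hk0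
      rw [Finset.mem_filter, Finset.mem_range]
      refine ⟨by omega, ?_⟩
      have h5 := le_dist_pos hδ.le (D.walk F k) (D.walk F k0)
      have h6 := dist_triangle (p k) z (p k0)
      rw [dist_comm z (p k0)] at h6
      have h7 : δ * (((H984N.sd (D.walk F k).1 (D.walk F k0).1 : ℤ) : ℝ) - 1/2) <
          2 * r + δ := by
        have h8 : dist (pos δ (D.walk F k)) (pos δ (D.walk F k0)) = dist (p k) (p k0) := rfl
        rw [h8] at h5
        linarith [hk.2, hk0.2]
      rw [le_div_iff₀ hδ]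
      nlinarith
    exact_mod_cast hc

/-- The set of the curves which spend much time in a ball of radius `2^(-j)`. -/
def OO (A : ℝ) (j : ℕ) : Set X := {p : X | ∃ z : ℂ,
  A * ((j : ℝ) * Real.log 2) ^ (1/8 : ℝ) * ((1/2 : ℝ) ^ j) ^ (7/4 : ℝ) <
    p.2 * (volume {s : unitInterval | dist (p.1 s) z < (1/2) ^ j}).toReal}

theorem oo_open {A : ℝ} (hA : 0 ≤ A) (j : ℕ) : IsOpen (OO A j) := by
  have hl : 0 ≤ Real.log 2 := Real.log_nonneg (by norm_num)
  have h := occ_closed (K := A * ((j : ℝ) * Real.log 2) ^ (1/8 : ℝ) * ((1/2 : ℝ) ^ j) ^ (7/4 : ℝ))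
    ((1/2 : ℝ) ^ j) (by positivity)
  have e : OO A j = {p : X | ∀ z : ℂ, p.2 *
      (volume {s : unitInterval | dist (p.1 s) z < (1/2 : ℝ) ^ j}).toReal ≤
      A * ((j : ℝ) * Real.log 2) ^ (1/8 : ℝ) * ((1/2 : ℝ) ^ j) ^ (7/4 : ℝ)}ᶜ := by
    ext p
    simp only [OO, Set.mem_compl_iff, Set.mem_ofPred_eq, not_forall, not_le]
  rw [e]
  exact h.isOpen_compl

theorem occup (hO : S_OCC) : ∀ R : Rect, OccUp R := by
  classical
  intro R
  obtain ⟨l, C, hl, hC, H⟩ := hO
  obtain ⟨κ, S, δ0, -, hS, hδ0, hδ01, hshape⟩ := R.shape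
  have hlog : 0 < Real.log 2 := Real.log_pos (by norm_num)
  have h4 : (0:ℝ) < 4 ^ (7/4 : ℝ) := by positivity
  set A : ℝ := 2 * 4 ^ (7/4 : ℝ) * l with hA
  have hA0 : 0 < A := by positivity
  -- all `j` with `4 * 2^(-j) ≤ S`
  obtain ⟨J, hJ⟩ : ∃ J : ℕ, (1/2:ℝ) ^ J < S / 4 :=
    exists_pow_lt_of_lt_one (by positivity) (by norm_num)
  refine ⟨A * 4 ^ (7/4 : ℝ), by positivity, fun δ hδ hlim μ hμ => ?_⟩
  have key := bc R hδ hlim hμ (O := OO A) (fun j => oo_open hA0.le j)
    (K := C * (S ^ 2 / 16)) (by positivity) (J := J) (fun j hj => by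
    set r : ℝ := (1/2 : ℝ) ^ j with hr
    have hr0 : 0 < r := by positivity
    have hrS : 4 * r ≤ S := by
      have : r ≤ (1/2 : ℝ) ^ J := pow_le_pow_of_le_one (by norm_num) (by norm_num) hj
      linarith
    refine ⟨min δ0 r, lt_min hδ0 hr0, fun d hd hdm => ?_⟩
    have hd1 : d ≤ δ0 := hdm.trans (min_le_left _ _)
    have hd2 : d ≤ r := hdm.trans (min_le_right _ _)
    have hSh := hshape d hd hd1
    set L : ℝ := (j : ℝ) * Real.log 2 with hL
    have hL0 : 0 ≤ L := by positivity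
    set u : ℝ := A * L ^ (1/8 : ℝ) / 4 ^ (7/4 : ℝ) with hu
    have hu0 : 0 ≤ u := by positivity
    have h1 := H (R.dm d) (S / d) (4 * r / d) u hSh.ok hSh.w_le hSh.h_le
      (by rw [le_div_iff₀ hd]; linarith) (div_le_div_of_nonneg_right hrS hd.le) hu0
    have hpow : u * (4 * r / d) ^ (7/4 : ℝ) = A * L ^ (1/8 : ℝ) * r ^ (7/4 : ℝ) / d ^ (7/4 : ℝ) := by
      rw [Real.div_rpow (by positivity) hd.le, Real.mul_rpow (by norm_num) hr0.le, hu]
      field_simp
    have h2 : R.prob d (fun F => (R.curve d F, R.time d F) ∈ OO A j) ≤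
        P (R.dm d).edges (fun F => ∃ v : Vtx, u * (4 * r / d) ^ (7/4 : ℝ) ≤
          (((Finset.range ((R.dm d).len F + 1)).filter
            (fun t => ((H984N.sd ((R.dm d).walk F t).1 v : ℤ) : ℝ) ≤ 4 * r / d)).card : ℝ)) := by
      refine Pr_mono okh2 fun F _ hF => ?_
      obtain ⟨z, hz⟩ := hF
      obtain ⟨v, hv⟩ := occ_lat hd hd2
        (K := A * L ^ (1/8 : ℝ) * r ^ (7/4 : ℝ)) (by positivity) hz
      refine ⟨v, ?_⟩
      rw [hpow, div_le_iff₀ (Real.rpow_pos_of_pos hd _)]
      linarith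
    refine h2.trans (h1.trans ?_)
    have h5 : (S / d / (4 * r / d)) ^ 2 = S ^ 2 / 16 * 4 ^ j := by
      have e1 : S / d / (4 * r / d) = S / (4 * r) := by field_simp
      have e2 : (4:ℝ) ^ j = 1 / r ^ 2 := by
        rw [hr, ← pow_mul, mul_comm j 2, pow_mul]
        rw [one_div, ← inv_pow]
        norm_num
      rw [e1, e2]
      field_simp
      norm_num
    have h6 : (u / l) ^ 8 = 256 * L := by
      have e1 : u / l = 2 * L ^ (1/8 : ℝ) := by
        rw [hu, hA]
        field_simp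
      rw [e1, mul_pow, ← Real.rpow_natCast (L ^ (1/8 : ℝ)) 8, ← Real.rpow_mul hL0]
      norm_num
    have h7 : Real.exp (-(u / l) ^ 8) ≤ (1/8 : ℝ) ^ j := by
      rw [← exp_dyad, h6]
      apply Real.exp_le_exp.mpr
      rw [← hL]
      linarith
    rw [h5]
    calc C * (S ^ 2 / 16 * 4 ^ j) * Real.exp (-(u / l) ^ 8)
        ≤ C * (S ^ 2 / 16 * 4 ^ j) * (1/8 : ℝ) ^ j :=
          mul_le_mul_of_nonneg_left h7 (by positivity)
      _ = C * (S ^ 2 / 16) * (1/2) ^ j := by
          have : (1/2 : ℝ) ^ j = 4 ^ j * (1/8) ^ j := by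
            rw [← mul_pow]; norm_num
          rw [this]
          ring)
  filter_upwards [key] with p hp
  obtain ⟨J', hJ'⟩ := hp
  refine ⟨(1/2 : ℝ) ^ (J' + 2), by positivity, fun r hr hr2 z => ?_⟩
  have hr12 : r ≤ 1/2 := by
    have : (1/2 : ℝ) ^ (J' + 2) ≤ (1/2) ^ 1 :=
      pow_le_pow_of_le_one (by norm_num) (by norm_num) (by omega)
    linarith
  have hlr : 0 ≤ Real.log (1 / r) := Real.log_nonneg (by rw [le_div_iff₀ hr]; linarith)
  rcases le_or_gt p.2 0 with h0 | h0
  · exact (mul_nonpos_of_nonpos_of_nonneg h0 ENNReal.toReal_nonneg).trans (by positivity)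
  obtain ⟨j, hj1, hj2⟩ := dyad hr hr12
  have hjJ : J' ≤ j := dyad_late hj1 hr2
  have h1 := hJ' j hjJ
  have h2 : p.2 * (volume {s : unitInterval | dist (p.1 s) z < (1/2) ^ j}).toReal ≤
      A * ((j : ℝ) * Real.log 2) ^ (1/8 : ℝ) * ((1/2 : ℝ) ^ j) ^ (7/4 : ℝ) := by
    by_contra hc
    exact h1 ⟨z, not_le.mp hc⟩
  have hrj : r < (1/2 : ℝ) ^ j := by
    have : (1/2 : ℝ) ^ (j + 1) = (1/2) ^ j * (1/2) := pow_succ _ _
    have h3 : (0:ℝ) < (1/2) ^ j := by positivity
    linarith
  have h3 : (volume {s : unitInterval | dist (p.1 s) z ≤ r}).toReal ≤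
      (volume {s : unitInterval | dist (p.1 s) z < (1/2) ^ j}).toReal := by
    refine ENNReal.toReal_mono (measure_ne_top _ _) (measure_mono ?_)
    intro s hs
    exact lt_of_le_of_lt hs hrj
  have h5 : (1/2 : ℝ) ^ j ≤ 4 * r := by
    have : (1/2 : ℝ) ^ (j + 2) = (1/2) ^ j * (1/4) := by rw [pow_add]; norm_num
    linarith
  have h6 : (j : ℝ) * Real.log 2 ≤ Real.log (1 / r) := by
    rw [← log_dyad]
    apply Real.log_le_log (by positivity)
    exact one_div_le_one_div_of_le hr hrj.le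
  calc p.2 * (volume {s : unitInterval | dist (p.1 s) z ≤ r}).toReal
      ≤ p.2 * (volume {s : unitInterval | dist (p.1 s) z < (1/2) ^ j}).toReal :=
        mul_le_mul_of_nonneg_left h3 h0.le
    _ ≤ A * ((j : ℝ) * Real.log 2) ^ (1/8 : ℝ) * ((1/2 : ℝ) ^ j) ^ (7/4 : ℝ) := h2
    _ ≤ A * (Real.log (1 / r)) ^ (1/8 : ℝ) * (4 * r) ^ (7/4 : ℝ) := by
        refine mul_le_mul (mul_le_mul_of_nonneg_left ?_ hA0.le) ?_ (by positivity) (by positivity)
        · exact Real.rpow_le_rpow (by positivity) h6 (by norm_num)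
        · exact Real.rpow_le_rpow (by positivity) h5 (by norm_num)
    _ = A * 4 ^ (7/4 : ℝ) * (r ^ (7/4 : ℝ) * Real.log (1 / r) ^ (1/8 : ℝ)) := by
        rw [Real.mul_rpow (by norm_num) hr.le]
        ring

end Pool.Agent.Y674.ME
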